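import Mathlib

/-!
# The number of translational tiles in `[n]^d` is `O(n^C (3^(1/3))^(n^d))`
-/

set_option autoImplicit false

namespace Pool.Agent.Results.MP_13da68_co.PolynomialCorrection

/-- The finite set `S ⊆ ℤ^d` tiles `ℤ^d` by translations: for some `T ⊆ ℤ^d` every `x ∈ ℤ^d` can be
written in exactly one way as `x = s + t` with `s ∈ S`, `t ∈ T`. -/
def Tiles {d : ℕ} (S : Finset (Fin d → ℤ)) : Prop :=
  ∃ T : Set (Fin d → ℤ), ∀ x : Fin d → ℤ,
    ∃! p : (Fin d → ℤ) × (Fin d → ℤ), p.1 ∈ S ∧ p.2 ∈ T ∧ x = p.1 + p.2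

/-- the cube `[n]^d = {1, …, n}^d` -/
noncomputable def cube (d n : ℕ) : Finset (Fin d → ℤ) := Fintype.piFinset fun _ => Finset.Icc 1 (n : ℤ)

open Classical in
/-- `t_{n,d}`: the number of subsets `S` of `[n]^d` that tile `ℤ^d` by translations -/
noncomputable def t (n d : ℕ) : ℕ := ((cube d n).powerset.filter fun S => Tiles S).card

section count

theorem cube_le (a : ℕ) : a ^ 3 ≤ 3 ^ a := by
  induction a with
  | zero => simp
  | succ a ih =>
    rcases Nat.lt_or_ge a 3 with h | h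
    · interval_cases a <;> norm_num
    · calc (a + 1) ^ 3 ≤ 3 * a ^ 3 := by nlinarith [mul_le_mul h h (by norm_num) (by omega), mul_le_mul h (mul_le_mul h h (by norm_num) (by omega)) (by norm_num) (by omega)]
        _ ≤ 3 * 3 ^ a := by omega
        _ = 3 ^ (a + 1) := by ring

/-- The number of common transversals of a partition of `M` is at most the product of the sizes of
the classes. -/
theorem transversals {α ι : Type*} [DecidableEq α] [DecidableEq ι] [Nonempty α] (M : Finset α) (I : Finset ι)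
    (C : ι → Finset α)
    (hC : ∀ i ∈ I, C i ⊆ M) (hd : ∀ m ∈ M, ∃! i, i ∈ I ∧ m ∈ C i)
    (F : Finset (Finset α)) (hF : ∀ S ∈ F, S ⊆ M ∧ ∀ i ∈ I, (S ∩ C i).card = 1) :
    F.card ^ 3 ≤ 3 ^ M.card := by
  have h1 : F.card ≤ ∏ i ∈ I, (C i).card := by
    rw [← Finset.card_pi]
    have hex : ∀ S ∈ F, ∀ i ∈ I, ∃ a, S ∩ C i = {a} := fun S hS i hi =>
      Finset.card_eq_one.1 ((hF S hS).2 i hi)
    have hne : ∀ S ∈ F, ∀ i ∈ I, ∃ a, a ∈ C i ∧ S ∩ C i = {a} := by
      intro S hS i hi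
      obtain ⟨a, ha⟩ := hex S hS i hi
      refine ⟨a, ?_, ha⟩
      have : a ∈ S ∩ C i := by rw [ha]; simp
      exact (Finset.mem_inter.1 this).2
    choose! f hf using hne
    refine Finset.card_le_card_of_injOn (fun S => fun i _ => f S i) ?_ ?_
    · intro S hS
      rw [Finset.mem_coe, Finset.mem_pi]
      intro i hi
      exact (hf S hS i hi).1
    · intro S hS S' hS' heq
      have hS : S ∈ F := hS
      have hS' : S' ∈ F := hS'
      have hfe : ∀ i ∈ I, f S i = f S' i := by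
        intro i hi
        exact congrFun (congrFun heq i) hi
      ext m
      constructor
      · intro hm
        obtain ⟨i, ⟨hi, hmi⟩, -⟩ := hd m ((hF S hS).1 hm)
        have h2 : m ∈ S ∩ C i := Finset.mem_inter.2 ⟨hm, hmi⟩
        rw [(hf S hS i hi).2, hfe i hi, ← (hf S' hS' i hi).2] at h2
        exact (Finset.mem_inter.1 h2).1
      · intro hm
        obtain ⟨i, ⟨hi, hmi⟩, -⟩ := hd m ((hF S' hS').1 hm)
        have h2 : m ∈ S' ∩ C i := Finset.mem_inter.2 ⟨hm, hmi⟩
        rw [(hf S' hS' i hi).2, ← hfe i hi, ← (hf S hS i hi).2] at h2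
        exact (Finset.mem_inter.1 h2).1
  have h2 : ∑ i ∈ I, (C i).card = M.card := by
    have hM : M = I.biUnion C := by
      ext m
      rw [Finset.mem_biUnion]
      constructor
      · intro hm
        obtain ⟨i, hi, -⟩ := hd m hm
        exact ⟨i, hi⟩
      · rintro ⟨i, hi, hm⟩
        exact hC i hi hm
    rw [hM, Finset.card_biUnion]
    intro i hi j hj hij
    show Disjoint (C i) (C j)
    rw [Finset.disjoint_left]
    intro m hm hm'
    obtain ⟨k, -, hk⟩ := hd m (hC i hi hm)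
    exact hij ((hk i ⟨hi, hm⟩).trans (hk j ⟨hj, hm'⟩).symm)
  calc F.card ^ 3 ≤ (∏ i ∈ I, (C i).card) ^ 3 := Nat.pow_le_pow_left h1 3
    _ = ∏ i ∈ I, (C i).card ^ 3 := by rw [Finset.prod_pow]
    _ ≤ ∏ i ∈ I, 3 ^ (C i).card := Finset.prod_le_prod' fun i _ => cube_le _
    _ = 3 ^ M.card := by rw [Finset.prod_pow_eq_pow_sum, h2]

/-- the number of subsets of `W` with at most `N` elements is at most `(|W| + 1)^N` -/
theorem few_subsets {α : Type*} [DecidableEq α] (W : Finset α) (N : ℕ) (F : Finset (Finset α))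
    (hF : ∀ w ∈ F, w ⊆ W ∧ w.card ≤ N) : F.card ≤ (W.card + 1) ^ N := by
  classical
  have h1 : F ⊆ (Fintype.piFinset fun _ : Fin N => Finset.insertNone W).image
      (fun f => Finset.eraseNone (Finset.univ.image f)) := by
    intro w hw
    obtain ⟨hwW, hwN⟩ := hF w hw
    rw [Finset.mem_image]
    let e := w.equivFin
    refine ⟨fun i => if h : (i : ℕ) < w.card then some (e.symm ⟨i, h⟩ : α) else none, ?_, ?_⟩
    · rw [Fintype.mem_piFinset]
      intro i
      by_cases h : (i : ℕ) < w.card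
      · simp only [h, dif_pos, Finset.some_mem_insertNone]
        exact hwW (e.symm ⟨i, h⟩).2
      · simp only [h, dif_neg, not_false_eq_true]
        exact Finset.none_mem_insertNone
    · ext a
      rw [Finset.mem_eraseNone, Finset.mem_image]
      constructor
      · rintro ⟨i, -, hi⟩
        by_cases h : (i : ℕ) < w.card
        · simp only [h, dif_pos, Option.some.injEq] at hi
          rw [← hi]
          exact (e.symm ⟨i, h⟩).2
        · simp [h] at hi
      · intro ha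
        refine ⟨⟨e ⟨a, ha⟩, lt_of_lt_of_le (e ⟨a, ha⟩).2 hwN⟩, Finset.mem_univ _, ?_⟩
        simp
  calc F.card ≤ _ := Finset.card_le_card h1
    _ ≤ _ := Finset.card_image_le
    _ = (W.card + 1) ^ N := by
      rw [Fintype.card_piFinset]
      simp

/-- few small subsets -/
theorem small_subsets {α : Type*} [DecidableEq α] (M : Finset α) (F : Finset (Finset α))
    (hF : ∀ S ∈ F, S ⊆ M ∧ 16 * S.card ≤ M.card) :
    (F.card : ℝ) ^ 48 ≤ (3 : ℝ) ^ (16 * M.card) := by
  set v := M.card with hv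
  set k := v / 16 with hk
  have h1 : (F.card : ℝ) * (1 / 4) ^ k ≤ (5 / 4) ^ v := by
    have h2 := Finset.sum_pow_mul_eq_add_pow (1 / 4 : ℝ) 1 M
    have h3 : ∑ S ∈ F, (1 / 4 : ℝ) ^ k ≤ ∑ S ∈ M.powerset, (1 / 4 : ℝ) ^ S.card * 1 ^ (M.card - S.card) := by
      calc ∑ S ∈ F, (1 / 4 : ℝ) ^ k ≤ ∑ S ∈ F, (1 / 4 : ℝ) ^ S.card * 1 ^ (M.card - S.card) := by
            apply Finset.sum_le_sum
            intro S hS
            rw [one_pow, mul_one]
            apply pow_le_pow_of_le_one (by norm_num) (by norm_num)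
            have := (hF S hS).2
            omega
        _ ≤ _ := by
            apply Finset.sum_le_sum_of_subset_of_nonneg
            · intro S hS
              exact Finset.mem_powerset.2 (hF S hS).1
            · intro S _ _
              positivity
    rw [h2, Finset.sum_const, nsmul_eq_mul] at h3
    have e : (1 / 4 + 1 : ℝ) = 5 / 4 := by norm_num
    rwa [e] at h3
  have h2 : (F.card : ℝ) ≤ (5 / 4) ^ v * 4 ^ k := by
    have h4 : (0 : ℝ) < (1 / 4) ^ k := by positivity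
    have h5 : (F.card : ℝ) = F.card * (1 / 4) ^ k * 4 ^ k := by
      rw [mul_assoc, ← mul_pow]
      norm_num
    rw [h5]
    exact mul_le_mul_of_nonneg_right h1 (by positivity)
  have h3 : (F.card : ℝ) ^ 16 ≤ ((5 / 4) ^ 16 * 4) ^ v := by
    calc (F.card : ℝ) ^ 16 ≤ ((5 / 4) ^ v * 4 ^ k) ^ 16 := pow_le_pow_left₀ (by positivity) h2 16
      _ = ((5 / 4) ^ 16) ^ v * 4 ^ (16 * k) := by
        rw [mul_pow, ← pow_mul, ← pow_mul, ← pow_mul, mul_comm v 16, mul_comm k 16]
      _ ≤ ((5 / 4) ^ 16) ^ v * 4 ^ v := by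
        apply mul_le_mul_of_nonneg_left _ (by positivity)
        apply pow_le_pow_right₀ (by norm_num)
        omega
      _ = _ := by rw [mul_pow]
  calc (F.card : ℝ) ^ 48 = ((F.card : ℝ) ^ 16) ^ 3 := by rw [← pow_mul]
    _ ≤ (((5 / 4) ^ 16 * 4) ^ v) ^ 3 := pow_le_pow_left₀ (by positivity) h3 3
    _ = ((((5 : ℝ) / 4) ^ 16 * 4) ^ 3) ^ v := by rw [← pow_mul, ← pow_mul, mul_comm v 3]
    _ ≤ ((3 : ℝ) ^ 16) ^ v := by
        apply pow_le_pow_left₀ (by positivity)
        norm_num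
    _ = _ := by rw [← pow_mul]

end count

section tiles

variable {d : ℕ}

/-- the window `{-(n-1), …, n-1}^d` -/
noncomputable def win (d n : ℕ) : Finset (Fin d → ℤ) := Fintype.piFinset fun _ => Finset.Icc (1 - n : ℤ) (n - 1)

theorem mem_cube {n : ℕ} {m : Fin d → ℤ} : m ∈ cube d n ↔ ∀ i, 1 ≤ m i ∧ m i ≤ n := by
  simp [cube, Fintype.mem_piFinset]

theorem mem_win {n : ℕ} {m : Fin d → ℤ} : m ∈ win d n ↔ ∀ i, 1 - (n : ℤ) ≤ m i ∧ m i ≤ n - 1 := by
  simp [win, Fintype.mem_piFinset]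

/-- the pair `(S, T)` is a tiling pair -/
def Pair (S : Finset (Fin d → ℤ)) (T : Set (Fin d → ℤ)) : Prop :=
  ∀ x : Fin d → ℤ, ∃! p : (Fin d → ℤ) × (Fin d → ℤ), p.1 ∈ S ∧ p.2 ∈ T ∧ x = p.1 + p.2

theorem Pair.uniq {S : Finset (Fin d → ℤ)} {T : Set (Fin d → ℤ)} (h : Pair S T)
    {x s s' : Fin d → ℤ} (hs : s ∈ S) (hs' : s' ∈ S) (ht : x - s ∈ T) (ht' : x - s' ∈ T) :
    s = s' := by
  have := (h x).unique (y₁ := (s, x - s)) (y₂ := (s', x - s')) ⟨hs, ht, by simp⟩
    ⟨hs', ht', by simp⟩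
  exact congrArg Prod.fst this

/-- all the tiles in the cube having a complement with a given trace on the window: their number
cubed is at most `3^(n^d)` -/
theorem fibre {n : ℕ} (F : Finset (Finset (Fin d → ℤ))) (T : Finset (Fin d → ℤ) → Set (Fin d → ℤ))
    (hF : ∀ S ∈ F, S ⊆ cube d n ∧ Pair S (T S))
    (htr : ∀ S ∈ F, ∀ S' ∈ F, ∀ w ∈ win d n, w ∈ T S ↔ w ∈ T S') :
    F.card ^ 3 ≤ 3 ^ (cube d n).card := by
  classical
  rcases F.eq_empty_or_nonempty with rfl | ⟨S0, hS0⟩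
  · simp
  obtain ⟨hS0c, hP0⟩ := hF S0 hS0
  let y : Fin d → ℤ := fun _ => n + 1
  have hwin : ∀ s0 ∈ cube d n, ∀ m ∈ cube d n, y - s0 - m ∈ win d n := by
    intro s0 h0 m hm
    rw [mem_cube] at h0 hm
    rw [mem_win]
    intro i
    have h1 := h0 i
    have h2 := hm i
    simp only [Pi.sub_apply, y]
    omega
  refine transversals (cube d n) S0 (fun s0 => (cube d n).filter fun m => y - s0 - m ∈ T S0)
    (fun i _ => Finset.filter_subset _ _) ?_ F ?_
  · intro m hm
    obtain ⟨⟨s0, t0⟩, ⟨h1, h2, h3⟩, h4⟩ := hP0 (y - m)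
    refine ⟨s0, ⟨h1, Finset.mem_filter.2 ⟨hm, ?_⟩⟩, ?_⟩
    · have : y - s0 - m = t0 := by
        have h3' : y - m = s0 + t0 := h3
        have : y - s0 - m = y - m - s0 := by abel
        rw [this, h3']
        simp
      show y - s0 - m ∈ T S0
      rw [this]; exact h2
    · rintro s1 ⟨h5, h6⟩
      have h7 := (Finset.mem_filter.1 h6).2
      have := h4 (s1, y - m - s1) ⟨h5, ?_, by simp⟩
      · exact congrArg Prod.fst this
      · have e : y - m - s1 = y - s1 - m := by abel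
        show y - m - s1 ∈ T S0
        rw [e]; exact h7
  · intro S hS
    obtain ⟨hSc, hP⟩ := hF S hS
    refine ⟨hSc, fun s0 hs0 => ?_⟩
    rw [Finset.card_eq_one]
    obtain ⟨⟨s, t'⟩, ⟨h1, h2, h3⟩, -⟩ := hP (y - s0)
    have h1 : s ∈ S := h1
    have h2 : t' ∈ T S := h2
    have h3 : y - s0 = s + t' := h3
    have e : y - s0 - s = t' := by rw [h3]; simp
    refine ⟨s, ?_⟩
    ext m
    rw [Finset.mem_inter, Finset.mem_filter, Finset.mem_singleton]
    constructor
    · rintro ⟨hm, hmc, hmT⟩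
      refine hP.uniq (x := y - s0) hm h1 ?_ (by rw [e]; exact h2)
      exact (htr S hS S0 hS0 _ (hwin s0 (hS0c hs0) m hmc)).2 hmT
    · rintro rfl
      refine ⟨h1, hSc h1, ?_⟩
      exact (htr S hS S0 hS0 _ (hwin s0 (hS0c hs0) _ (hSc h1))).1 (by rw [e]; exact h2)

/-- the trace of the complement of a large tile on the window is small -/
theorem trace_small {n : ℕ} {S : Finset (Fin d → ℤ)} {T : Set (Fin d → ℤ)} (hS : S ⊆ cube d n)
    (hP : Pair S T) (w : Finset (Fin d → ℤ)) (hw : w ⊆ win d n) (hwT : ∀ x ∈ w, x ∈ T) :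
    S.card * w.card ≤ (3 * n) ^ d := by
  rw [← Finset.card_product]
  have h1 : (S ×ˢ w).card ≤ (Fintype.piFinset fun _ : Fin d => Finset.Icc (2 - n : ℤ) (2 * n - 1)).card := by
    refine Finset.card_le_card_of_injOn (fun p => p.1 + p.2) ?_ ?_
    · rintro ⟨s, u⟩ hp
      rw [Finset.mem_coe, Finset.mem_product] at hp
      have h2 := mem_cube.1 (hS hp.1)
      have h3 := mem_win.1 (hw hp.2)
      rw [Finset.mem_coe, Fintype.mem_piFinset]
      intro i
      rw [Finset.mem_Icc]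
      have h4 : 1 ≤ s i ∧ s i ≤ n := h2 i
      have h5 : 1 - (n : ℤ) ≤ u i ∧ u i ≤ n - 1 := h3 i
      show 2 - (n : ℤ) ≤ s i + u i ∧ s i + u i ≤ 2 * n - 1
      omega
    · rintro ⟨s, u⟩ hp ⟨s', u'⟩ hp' he
      rw [Finset.mem_coe, Finset.mem_product] at hp hp'
      have he : s + u = s' + u' := he
      exact (hP (s + u)).unique (y₁ := (s, u)) (y₂ := (s', u')) ⟨hp.1, hwT _ hp.2, rfl⟩
        ⟨hp'.1, hwT _ hp'.2, he⟩
  refine h1.trans ?_
  rw [Fintype.card_piFinset]
  simp only [Int.card_Icc, Finset.prod_const, Finset.card_univ, Fintype.card_fin]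
  apply Nat.pow_le_pow_left
  omega

theorem card_cube (d n : ℕ) : (cube d n).card = n ^ d := by
  unfold cube
  rw [Fintype.card_piFinset]
  simp

theorem card_win (d n : ℕ) : (win d n).card ≤ (2 * n) ^ d := by
  unfold win
  rw [Fintype.card_piFinset]
  simp only [Int.card_Icc, Finset.prod_const, Finset.card_univ, Fintype.card_fin]
  apply Nat.pow_le_pow_left
  omega

end tiles

theorem root_pow (v : ℕ) : (((3 : ℝ) ^ ((1 : ℝ) / 3)) ^ v) ^ 3 = 3 ^ v := by
  rw [← pow_mul, mul_comm, pow_mul]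
  congr 1
  rw [← Real.rpow_natCast, ← Real.rpow_mul (by norm_num)]
  norm_num

/-- For every `d` and `n ≥ 1`, `t_{n,d} ≤ 2 ((2 n)^d + 1)^(16 * 3^d) (3^(1/3))^(n^d)`. -/
theorem bound (d n : ℕ) (hn : 1 ≤ n) :
    (t n d : ℝ) ≤ 2 * ((2 * n : ℝ) ^ d + 1) ^ (16 * 3 ^ d) * ((3 : ℝ) ^ ((1 : ℝ) / 3)) ^ (n ^ d) := by
  classical
  set B : ℝ := ((3 : ℝ) ^ ((1 : ℝ) / 3)) ^ (n ^ d) with hB
  have hB0 : 0 < B := by positivity
  set v := n ^ d with hv
  have hv0 : 0 < v := by positivity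
  set F := (cube d n).powerset.filter fun S => Tiles S with hF
  -- small tiles
  set F1 := F.filter fun S => 16 * S.card ≤ v with hF1
  set F2 := F.filter fun S => ¬ 16 * S.card ≤ v with hF2
  have hsplit : F.card = F1.card + F2.card := by
    rw [hF1, hF2, Finset.card_filter_add_card_filter_not]
  have h1 : (F1.card : ℝ) ≤ B := by
    have h := small_subsets (cube d n) F1 (by
      intro S hS
      have hS1 := Finset.mem_filter.1 hS
      have hS2 := Finset.mem_filter.1 hS1.1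
      refine ⟨Finset.mem_powerset.1 hS2.1, ?_⟩
      rw [card_cube]
      exact hS1.2)
    rw [card_cube] at h
    have h2 : B ^ 48 = (3 : ℝ) ^ (16 * v) := by
      have h3 : B ^ 48 = (B ^ 3) ^ 16 := by rw [← pow_mul B 3 16]
      rw [h3, hB, root_pow, ← pow_mul, mul_comm]
    rw [← h2] at h
    exact le_of_pow_le_pow_left₀ (by norm_num) hB0.le h
  -- large tiles
  have hex : ∀ S ∈ F2, ∃ T : Set (Fin d → ℤ), Pair S T := by
    intro S hS
    exact (Finset.mem_filter.1 (Finset.mem_filter.1 hS).1).2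
  choose! T hT using hex
  let tr : Finset (Fin d → ℤ) → Finset (Fin d → ℤ) := fun S => (win d n).filter fun x => x ∈ T S
  have hFsub : ∀ S ∈ F2, S ⊆ cube d n := fun S hS =>
    Finset.mem_powerset.1 (Finset.mem_filter.1 (Finset.mem_filter.1 hS).1).1
  have hfib : ∀ w ∈ F2.image tr, (F2.filter fun S => tr S = w).card ≤ ⌊B⌋₊ := by
    intro w _
    apply Nat.le_floor
    have h := fibre (n := n) (F2.filter fun S => tr S = w) T (by
      intro S hS
      have hS1 := Finset.mem_filter.1 hS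
      exact ⟨hFsub S hS1.1, hT S hS1.1⟩) (by
      intro S hS S' hS' x hx
      have hS1 := (Finset.mem_filter.1 hS).2
      have hS2 := (Finset.mem_filter.1 hS').2
      have hx1 : x ∈ tr S ↔ x ∈ tr S' := by rw [hS1, hS2]
      simp only [tr, Finset.mem_filter] at hx1
      constructor
      · intro h; exact (hx1.1 ⟨hx, h⟩).2
      · intro h; exact (hx1.2 ⟨hx, h⟩).2)
    rw [card_cube] at h
    have h' : ((F2.filter fun S => tr S = w).card : ℝ) ^ 3 ≤ B ^ 3 := by
      rw [hB, root_pow]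
      exact_mod_cast h
    exact le_of_pow_le_pow_left₀ (by norm_num) hB0.le h'
  have h2 : F2.card ≤ ⌊B⌋₊ * (F2.image tr).card := Finset.card_le_mul_card_image F2 _ hfib
  have h3 : (F2.image tr).card ≤ ((win d n).card + 1) ^ (16 * 3 ^ d) := by
    apply few_subsets
    intro w hw
    obtain ⟨S, hS, rfl⟩ := Finset.mem_image.1 hw
    refine ⟨Finset.filter_subset _ _, ?_⟩
    have h4 := trace_small (hFsub S hS) (hT S hS) (tr S) (Finset.filter_subset _ _)
      (fun x hx => (Finset.mem_filter.1 hx).2)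
    have h5 : v < 16 * S.card := not_le.1 (Finset.mem_filter.1 hS).2
    have h6 : v * (tr S).card ≤ v * (16 * 3 ^ d) := by
      calc v * (tr S).card ≤ 16 * S.card * (tr S).card := Nat.mul_le_mul_right _ h5.le
        _ = 16 * (S.card * (tr S).card) := by ring
        _ ≤ 16 * (3 * n) ^ d := Nat.mul_le_mul_left _ h4
        _ = v * (16 * 3 ^ d) := by rw [mul_pow, hv]; ring
    exact Nat.le_of_mul_le_mul_left h6 hv0
  have h4 : (F2.card : ℝ) ≤ B * ((2 * n : ℝ) ^ d + 1) ^ (16 * 3 ^ d) := by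
    calc (F2.card : ℝ) ≤ (⌊B⌋₊ : ℝ) * (F2.image tr).card := by exact_mod_cast h2
      _ ≤ B * ((2 * n : ℝ) ^ d + 1) ^ (16 * 3 ^ d) := by
        apply mul_le_mul (Nat.floor_le hB0.le) _ (Nat.cast_nonneg _) hB0.le
        calc ((F2.image tr).card : ℝ) ≤ (((win d n).card + 1) ^ (16 * 3 ^ d) : ℕ) := by
              exact_mod_cast h3
          _ ≤ ((2 * n : ℝ) ^ d + 1) ^ (16 * 3 ^ d) := by
              push_cast
              apply pow_le_pow_left₀ (by positivity)
              have := card_win d n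
              have h7 : ((win d n).card : ℝ) ≤ (2 * n : ℝ) ^ d := by exact_mod_cast this
              linarith
  have h5 : (1 : ℝ) ≤ ((2 * n : ℝ) ^ d + 1) ^ (16 * 3 ^ d) := by
    apply one_le_pow₀
    have : (0 : ℝ) ≤ (2 * n : ℝ) ^ d := by positivity
    linarith
  have h6 : (t n d : ℝ) = F1.card + F2.card := by
    have : t n d = F.card := by
      rw [hF]; unfold t; congr
    rw [this, hsplit]; push_cast; ring
  rw [h6]
  nlinarith

/-- **Theorem (answer to Q1).** For every `d ≥ 1` there is a constant `K` with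
`t_{n,d} ≤ K n^C (3^(1/3))^(n^d)` for all `n ≥ 1`, where `C = 16 d 3^d`. -/
theorem result (d : ℕ) (_ : 1 ≤ d) : ∃ K : ℝ, ∀ n : ℕ, 1 ≤ n →
    (t n d : ℝ) ≤ K * (n : ℝ) ^ (16 * d * 3 ^ d) * ((3 : ℝ) ^ ((1 : ℝ) / 3)) ^ (n ^ d) := by
  refine ⟨2 * (2 ^ d + 1) ^ (16 * 3 ^ d), fun n hn => ?_⟩
  refine (bound d n hn).trans ?_
  apply mul_le_mul_of_nonneg_right _ (by positivity)
  have hn1 : (1 : ℝ) ≤ n := by exact_mod_cast hn
  have h1 : (2 * n : ℝ) ^ d + 1 ≤ (2 ^ d + 1) * (n : ℝ) ^ d := by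
    rw [mul_pow]
    have : (1 : ℝ) ≤ (n : ℝ) ^ d := one_le_pow₀ hn1
    nlinarith
  calc 2 * ((2 * n : ℝ) ^ d + 1) ^ (16 * 3 ^ d) ≤ 2 * ((2 ^ d + 1) * (n : ℝ) ^ d) ^ (16 * 3 ^ d) := by
        apply mul_le_mul_of_nonneg_left _ (by norm_num)
        apply pow_le_pow_left₀ (by positivity) h1
    _ = 2 * (2 ^ d + 1) ^ (16 * 3 ^ d) * (n : ℝ) ^ (16 * d * 3 ^ d) := by
        rw [mul_pow, ← pow_mul, ← mul_assoc]
        congr 2
        ring

end Pool.Agent.Results.MP_13da68_co.PolynomialCorrection
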